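import Pool.Agent.helper56.CY.Spec
import Pool.Agent.helper89.CT.JZ5

/-! # cy:SPL: two separate parts -/

namespace Pool.Agent.CY
open Finset CT

theorem SPL_mem {V : Type} [DecidableEq V] {S : Finset V} {d : V × Fin 4} : d ∈ dts S ↔ d.1 ∈ S := by
  unfold dts
  rw [Finset.mem_product]
  exact ⟨fun h => h.1, fun h => ⟨h, Finset.mem_univ _⟩⟩

theorem SPL_part (hZCG : ZCG_stmt) {V : Type} [DecidableEq V] (L : List V) (e : V × Fin 4 → V × Fin 4)
    (hn : L.Nodup) (hL : L ≠ []) (he : ∀ d, e (e d) = d) (h1 : ∀ d ∈ dts L.toFinset, e d ≠ d)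
    (h2 : ∀ d ∈ dts L.toFinset, e d ∈ dts L.toFinset) : 8 ∣ Z (-4) L e := by
  have hA : Act (dts L.toFinset) fun d => if d ∈ dts L.toFinset then e d else d := by
    constructor
    · intro d
      by_cases hd : d ∈ dts L.toFinset
      · change (if (if d ∈ dts L.toFinset then e d else d) ∈ dts L.toFinset then
          e (if d ∈ dts L.toFinset then e d else d) else (if d ∈ dts L.toFinset then e d else d)) = d
        rw [if_pos hd, if_pos (h2 d hd), he]
      · change (if (if d ∈ dts L.toFinset then e d else d) ∈ dts L.toFinset then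
          e (if d ∈ dts L.toFinset then e d else d) else (if d ∈ dts L.toFinset then e d else d)) = d
        rw [if_neg hd, if_neg hd]
    · intro d
      change (if d ∈ dts L.toFinset then e d else d) ≠ d ↔ _
      by_cases hd : d ∈ dts L.toFinset
      · rw [if_pos hd]
        exact ⟨fun _ => hd, fun _ => h1 d hd⟩
      · rw [if_neg hd]
        exact ⟨fun h => absurd rfl h, fun h => absurd h hd⟩
  have hz : Z (-4) L e = Z (-4) L (fun d => if d ∈ dts L.toFinset then e d else d) :=
    hZCG V (-4) L e _ (fun d hd => (if_pos hd).symm)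
  rw [hz]
  clear hz
  generalize (fun d => if d ∈ dts L.toFinset then e d else d) = e1 at hA
  rcases List.eq_nil_or_concat' L with h | ⟨L', v, h⟩
  · exact absurd h hL
  · subst h
    have hs : (L' ++ [v]).toFinset = insert v L'.toFinset := by
      ext w
      simp
    rw [hs] at hA
    have hn' := List.nodup_append.1 hn
    have hv : v ∉ L' := fun hv => hn'.2.2 v hv v (List.mem_singleton.2 rfl) rfl
    rw [JZ5 V (-4) v L' e1 hn'.1 hv hA]
    exact ⟨Z (-4) L' e1, by ring⟩

theorem SPL (hZCG : ZCG_stmt) (hPRD : PRD_stmt) : SPL_stmt := by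
  intro V _ L1 L2 e hn h1 h2 hA hpres
  rw [hPRD V (-4) L1 L2 e hn hA hpres]
  have hn' := List.nodup_append.1 hn
  have hdis : ∀ w, w ∈ L1 → w ∈ L2 → False := fun w a b => hn'.2.2 w a w b rfl
  have a1 : 8 ∣ Z (-4) L1 e := by
    refine SPL_part hZCG L1 e hn'.1 h1 hA.1 (fun d hd => ?_) hpres
    refine (hA.2 d).2 ?_
    rw [SPL_mem] at hd ⊢
    rw [List.toFinset_append]
    exact Finset.mem_union_left _ hd
  have a2 : 8 ∣ Z (-4) L2 e := by
    have hin : ∀ d ∈ dts L2.toFinset, d ∈ dts (L1 ++ L2).toFinset := by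
      intro d hd
      rw [SPL_mem] at hd ⊢
      rw [List.toFinset_append]
      exact Finset.mem_union_right _ hd
    refine SPL_part hZCG L2 e hn'.2.1 h2 hA.1 (fun d hd => (hA.2 d).2 (hin d hd)) (fun d hd => ?_)
    have h3 : e d ∈ dts (L1 ++ L2).toFinset := by
      rw [← hA.2, hA.1]
      exact Ne.symm ((hA.2 d).2 (hin d hd))
    by_contra h4
    have h5 : e d ∈ dts L1.toFinset := by
      rw [SPL_mem] at h3 h4 ⊢
      rw [List.toFinset_append, Finset.mem_union] at h3
      exact h3.resolve_right h4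
    have h6 := hpres _ h5
    rw [hA.1, SPL_mem, List.mem_toFinset] at h6
    rw [SPL_mem, List.mem_toFinset] at hd
    exact hdis _ h6 hd
  obtain ⟨a, ha⟩ := a1
  obtain ⟨b, hb⟩ := a2
  exact ⟨2 * a * b, by rw [ha, hb]; ring⟩

end Pool.Agent.CY
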