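import Pool.Agent.helper56.CY.Spec

/-! # cy:RDV: the values of the reduced matching -/

namespace Pool.Agent.CY
open Finset CT

theorem RDV_join {ι D : Type} [DecidableEq ι] [DecidableEq D] {f : ι → D} (hf : Function.Injective f) {e : D → D}
    {σ : ι → ι} (h : ∀ x, e (f x) = f (σ x)) (x y z : ι) : join e (f x) (f y) (f z) = f (join σ x y z) := by
  unfold join
  rw [h z, h x, h y]
  simp only [hf.eq_iff]
  split_ifs <;> rfl

theorem RDV_J2 {ι D : Type} [DecidableEq ι] [DecidableEq D] {f : ι → D} (hf : Function.Injective f) {e : D → D}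
    {σ : ι → ι} (h : ∀ x, e (f x) = f (σ x)) (a b c d z : ι) :
    J2 e (f a) (f b) (f c) (f d) (f z) = f (J2 σ a b c d z) := by
  unfold J2
  exact RDV_join hf (fun x => RDV_join hf h a b x) c d z

/-- the fourteen darts -/
def RDV_f {V : Type} (e : V × Fin 4 → V × Fin 4) (u v w : V) (i j k : Fin 4 → Fin 4) : Fin 14 → V × Fin 4 :=
  ![(u, i 0), (u, i 1), (u, i 2), (u, i 3), (v, j 0), (v, j 1), (w, k 0), (w, k 1), (w, k 2), (w, k 3),
    e (u, i 2), e (u, i 3), e (w, k 2), e (w, k 3)]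

/-- the involution on their numbers -/
def RDV_s : Fin 14 → Fin 14 := ![5, 6, 10, 11, 7, 0, 1, 4, 12, 13, 2, 3, 8, 9]

theorem RDV_dec : J2 (J2 RDV_s 0 1 2 3) 6 8 7 9 4 = 13 ∧ J2 (J2 RDV_s 0 1 2 3) 6 8 7 9 5 = 12 ∧
    J2 (J2 RDV_s 0 1 2 3) 6 8 7 9 13 = 4 ∧ J2 (J2 RDV_s 0 1 2 3) 6 8 7 9 12 = 5 ∧
    J2 (J2 RDV_s 0 1 2 3) 6 8 7 9 10 = 11 ∧ J2 (J2 RDV_s 0 1 2 3) 6 8 7 9 11 = 10 ∧
    J2 (J2 RDV_s 0 1 2 3) 6 8 7 9 0 = 0 ∧ J2 (J2 RDV_s 0 1 2 3) 6 8 7 9 1 = 1 ∧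
    J2 (J2 RDV_s 0 1 2 3) 6 8 7 9 2 = 2 ∧ J2 (J2 RDV_s 0 1 2 3) 6 8 7 9 3 = 3 ∧
    J2 (J2 RDV_s 0 1 2 3) 6 8 7 9 6 = 6 ∧ J2 (J2 RDV_s 0 1 2 3) 6 8 7 9 7 = 7 ∧
    J2 (J2 RDV_s 0 1 2 3) 6 8 7 9 8 = 8 ∧ J2 (J2 RDV_s 0 1 2 3) 6 8 7 9 9 = 9 := by
  decide

section
variable {V : Type} [DecidableEq V] {L : List V} {e : V × Fin 4 → V × Fin 4} {u v w : V} {i j k : Fin 4 → Fin 4}

theorem RDV_L (h : Tri L e u v w i j k) {x : V} (hx : x ∈ L) : x ≠ u ∧ x ≠ v ∧ x ≠ w := by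
  have hn := h.nd
  simp only [List.nodup_cons, List.mem_cons, not_or] at hn
  obtain ⟨⟨_, _, h1⟩, ⟨_, h2⟩, h3, _⟩ := hn
  exact ⟨fun h => h1 (h ▸ hx), fun h => h2 (h ▸ hx), fun h => h3 (h ▸ hx)⟩

theorem RDV_e (h : Tri L e u v w i j k) (x : Fin 14) : e (RDV_f e u v w i j k x) = RDV_f e u v w i j k (RDV_s x) := by
  have he := h.act.1
  have uv := h.uv
  have vw := h.vw
  have wu := h.wu
  have uv' : e (v, j 1) = (u, i 0) := by rw [← uv, he]
  have vw' : e (w, k 1) = (v, j 0) := by rw [← vw, he]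
  have wu' : e (u, i 1) = (w, k 0) := by rw [← wu, he]
  fin_cases x
  · exact uv
  · exact wu'
  · rfl
  · rfl
  · exact vw
  · exact uv'
  · exact wu
  · exact vw'
  · rfl
  · rfl
  · exact he _
  · exact he _
  · exact he _
  · exact he _

theorem RDV_inj (h : Tri L e u v w i j k) : Function.Injective (RDV_f e u v w i j k) := by
  have he : Function.Injective e := fun a b hab => by rw [← h.act.1 a, hab, h.act.1]
  have hn := h.nd
  simp only [List.nodup_cons, List.mem_cons, not_or] at hn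
  obtain ⟨⟨n1, n2, _⟩, ⟨n3, _⟩, _⟩ := hn
  obtain ⟨a1, a2, a3⟩ := RDV_L h h.u2
  obtain ⟨b1, b2, b3⟩ := RDV_L h h.u3
  obtain ⟨c1, c2, c3⟩ := RDV_L h h.w2
  obtain ⟨d1, d2, d3⟩ := RDV_L h h.w3
  have hp : ∀ {p q : V × Fin 4}, p.1 ≠ q.1 → p ≠ q := fun hpq heq => hpq (congrArg Prod.fst heq)
  have hI : ∀ {a b : Fin 4}, a ≠ b → ((u, i a) : V × Fin 4) ≠ (u, i b) := fun hab heq =>
    hab (h.hi (congrArg Prod.snd heq))
  have hJ : ∀ {a b : Fin 4}, a ≠ b → ((v, j a) : V × Fin 4) ≠ (v, j b) := fun hab heq =>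
    hab (h.hj (congrArg Prod.snd heq))
  have hK : ∀ {a b : Fin 4}, a ≠ b → ((w, k a) : V × Fin 4) ≠ (w, k b) := fun hab heq =>
    hab (h.hk (congrArg Prod.snd heq))
  have hE : ∀ {p q : V × Fin 4}, p ≠ q → e p ≠ e q := fun hpq heq => hpq (he heq)
  have key : ∀ x y : Fin 14, x < y → RDV_f e u v w i j k x ≠ RDV_f e u v w i j k y := by
    intro x y hxy
    fin_cases x <;> fin_cases y <;> first
      | exact absurd hxy (by decide)
      | exact hI (by decide)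
      | exact hJ (by decide)
      | exact hK (by decide)
      | exact hE (hI (by decide))
      | exact hE (hK (by decide))
      | exact hE (hp n2)
      | exact hp n1
      | exact hp n2
      | exact hp n3
      | exact hp (Ne.symm a1)
      | exact hp (Ne.symm a2)
      | exact hp (Ne.symm a3)
      | exact hp (Ne.symm b1)
      | exact hp (Ne.symm b2)
      | exact hp (Ne.symm b3)
      | exact hp (Ne.symm c1)
      | exact hp (Ne.symm c2)
      | exact hp (Ne.symm c3)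
      | exact hp (Ne.symm d1)
      | exact hp (Ne.symm d2)
      | exact hp (Ne.symm d3)
  intro x y hxy
  rcases lt_trichotomy x y with h1 | h1 | h1
  · exact absurd hxy (key x y h1)
  · exact h1
  · exact absurd hxy.symm (key y x h1)

theorem RDV_red (h : Tri L e u v w i j k) (x : Fin 14) : red e u w i k (RDV_f e u v w i j k x) =
    RDV_f e u v w i j k (J2 (J2 RDV_s 0 1 2 3) 6 8 7 9 x) := by
  have hinj := RDV_inj h
  exact RDV_J2 hinj (fun y => RDV_J2 hinj (RDV_e h) 0 1 2 3 y) 6 8 7 9 x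

end

theorem RDV : RDV_stmt := by
  intro V _ L e u v w i j k h
  have hr := RDV_red h
  obtain ⟨k4, k5, k13, k12, k10, k11, k0, k1, k2, k3, k6, k7, k8, k9⟩ := RDV_dec
  have he := h.act.1
  have g : ∀ x y : Fin 14, J2 (J2 RDV_s 0 1 2 3) 6 8 7 9 x = y →
      red e u w i k (RDV_f e u v w i j k x) = RDV_f e u v w i j k y := by
    intro x y hxy
    rw [hr x, hxy]
  refine ⟨?_, g 4 13 k4, g 5 12 k5, g 13 4 k13, g 12 5 k12, g 10 11 k10, g 11 10 k11, ?_⟩
  · intro d hd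
    rcases hd with hd | hd
    · obtain ⟨l, hl⟩ := (Finite.injective_iff_surjective.1 h.hi) d.2
      have hd' : d = (u, i l) := Prod.ext hd hl.symm
      rw [hd']
      fin_cases l
      · exact g 0 0 k0
      · exact g 1 1 k1
      · exact g 2 2 k2
      · exact g 3 3 k3
    · obtain ⟨l, hl⟩ := (Finite.injective_iff_surjective.1 h.hk) d.2
      have hd' : d = (w, k l) := Prod.ext hd hl.symm
      rw [hd']
      fin_cases l
      · exact g 6 6 k6
      · exact g 7 7 k7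
      · exact g 8 8 k8
      · exact g 9 9 k9
  · intro d hu hw hv0 hv1 hw3 hw2 hu2 hu3
    have e1 : ∀ x, e d = x → d = e x := fun x hx => by rw [← hx, he]
    have uA : ∀ l, d ≠ (u, i l) := fun l hl => hu (congrArg Prod.fst hl)
    have wA : ∀ l, d ≠ (w, k l) := fun l hl => hw (congrArg Prod.fst hl)
    have f0 : e d ≠ (u, i 0) := fun hx => hv1 (by rw [e1 _ hx, h.uv])
    have f1 : e d ≠ (u, i 1) := fun hx => wA 0 (by rw [e1 _ hx, ← h.wu, he])
    have f2 : e d ≠ (u, i 2) := fun hx => hu2 (e1 _ hx)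
    have f3 : e d ≠ (u, i 3) := fun hx => hu3 (e1 _ hx)
    have g0 : e d ≠ (w, k 0) := fun hx => uA 1 (by rw [e1 _ hx, h.wu])
    have g1 : e d ≠ (w, k 1) := fun hx => hv0 (by rw [e1 _ hx, ← h.vw, he])
    have g2 : e d ≠ (w, k 2) := fun hx => hw2 (e1 _ hx)
    have g3 : e d ≠ (w, k 3) := fun hx => hw3 (e1 _ hx)
    have j1 : ∀ (e' : V × Fin 4 → V × Fin 4) (x y : V × Fin 4), d ≠ x → d ≠ y → e' d ≠ x → e' d ≠ y →
        join e' x y d = e' d := by
      intro e' x y h1 h2 h3 h4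
      unfold join
      rw [if_neg (not_or.2 ⟨h1, h2⟩), if_neg h3, if_neg h4]
    have s1 := j1 e (u, i 0) (u, i 1) (uA 0) (uA 1) f0 f1
    have s2 := j1 (join e (u, i 0) (u, i 1)) (u, i 2) (u, i 3) (uA 2) (uA 3) (by rw [s1]; exact f2) (by rw [s1]; exact f3)
    rw [s1] at s2
    have s3 := j1 (J2 e (u, i 0) (u, i 1) (u, i 2) (u, i 3)) (w, k 0) (w, k 2) (wA 0) (wA 2)
      (by unfold J2; rw [s2]; exact g0) (by unfold J2; rw [s2]; exact g2)
    have s3' : J2 e (u, i 0) (u, i 1) (u, i 2) (u, i 3) d = e d := s2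
    rw [s3'] at s3
    have s4 := j1 (join (J2 e (u, i 0) (u, i 1) (u, i 2) (u, i 3)) (w, k 0) (w, k 2)) (w, k 1) (w, k 3) (wA 1) (wA 3)
      (by rw [s3]; exact g1) (by rw [s3]; exact g3)
    rw [s3] at s4
    exact s4

end Pool.Agent.CY
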